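import Mathlib
import Pool.Agent.R172.Compress

set_option autoImplicit false

/-!
# A positive fraction version of Kirchberger's theorem

Choose a random subset `T` of `A ∪ B` with `m` elements, `m` a large constant. If almost all
`(d+2)`-subsets are good, then with probability at least `1/2` all `(d+2)`-subsets of `T` are good,
and then `T ∩ A` and `T ∩ B` are separated (Kirchberger). The separating hyperplane of minimal norm
(support vector machine) is determined by `d + 1` points of `T` (Helly's theorem); if all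
hyperplanes misclassify many points of `A ∪ B`, then this has a small probability.
-/

namespace Pool.Agent.Results.MP_ff3a4f_co.PositiveFractionKirchberger

open Finset Module Filter Topology Pool.Agent.R172.Compress
open scoped RealInnerProductSpace Classical

/-- `P` and `Q` are separated by a hyperplane `{x | ⟪w, x⟫ = c}`: `P` lies in one of its open
half-spaces and `Q` lies in the other. -/
def Separated {d : ℕ} (P Q : Finset (EuclideanSpace ℝ (Fin d))) : Prop :=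
  ∃ (w : EuclideanSpace ℝ (Fin d)) (c : ℝ), w ≠ 0 ∧ (∀ p ∈ P, c < ⟪w, p⟫) ∧ ∀ q ∈ Q, ⟪w, q⟫ < c

/-- The number of the `(d+2)`-element subsets `S` of `A ∪ B` such that a hyperplane separates
`A ∩ S` from `B ∩ S`. -/
noncomputable def numGood {d : ℕ} (A B : Finset (EuclideanSpace ℝ (Fin d))) : ℕ :=
  (((A ∪ B).powersetCard (d + 2)).filter fun S => Separated (A ∩ S) (B ∩ S)).card

section

variable {d : ℕ}

/-- the space of the pairs `(w, c)` -/
abbrev V (d : ℕ) := WithLp 2 (EuclideanSpace ℝ (Fin d) × ℝ)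

lemma finrank_V : finrank ℝ (V d) = d + 1 := by
  rw [(WithLp.linearEquiv 2 ℝ (EuclideanSpace ℝ (Fin d) × ℝ)).finrank_eq, finrank_prod]
  simp

/-- the labelled vectors -/
noncomputable def vec (A : Finset (EuclideanSpace ℝ (Fin d))) (x : EuclideanSpace ℝ (Fin d)) :
    V d :=
  if x ∈ A then WithLp.toLp 2 (x, (-1 : ℝ)) else -WithLp.toLp 2 (x, (-1 : ℝ))

lemma inner_vec_mem {A : Finset (EuclideanSpace ℝ (Fin d))} {x : EuclideanSpace ℝ (Fin d)}
    (hx : x ∈ A) (u : V d) : ⟪u, vec A x⟫ = ⟪u.fst, x⟫ - u.snd := by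
  unfold vec
  rw [if_pos hx, WithLp.prod_inner_apply]
  simp
  ring

lemma inner_vec_notMem {A : Finset (EuclideanSpace ℝ (Fin d))} {x : EuclideanSpace ℝ (Fin d)}
    (hx : x ∉ A) (u : V d) : ⟪u, vec A x⟫ = u.snd - ⟪u.fst, x⟫ := by
  unfold vec
  rw [if_neg hx, inner_neg_right, WithLp.prod_inner_apply]
  simp
  ring

lemma lower (S : Finset (EuclideanSpace ℝ (Fin d))) (f : EuclideanSpace ℝ (Fin d) → ℝ) :
    ∃ c : ℝ, ∀ x ∈ S, c < f x := by
  obtain ⟨M, hM⟩ := Finset.exists_le (S.image fun x => -f x)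
  exact ⟨-M - 1, fun x hx => by
    linarith [hM (-f x) (mem_image_of_mem (fun x => -f x) hx)]⟩

lemma upper (S : Finset (EuclideanSpace ℝ (Fin d))) (f : EuclideanSpace ℝ (Fin d) → ℝ) :
    ∃ c : ℝ, ∀ x ∈ S, f x < c := by
  obtain ⟨c, hc⟩ := lower S fun x => -f x
  exact ⟨-c, fun x hx => by linarith [hc x hx]⟩

lemma separated_of_weak (hd : 1 ≤ d) {P Q : Finset (EuclideanSpace ℝ (Fin d))}
    (w : EuclideanSpace ℝ (Fin d)) (c : ℝ) (hP : ∀ p ∈ P, c < ⟪w, p⟫)
    (hQ : ∀ q ∈ Q, ⟪w, q⟫ < c) : Separated P Q := by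
  by_cases hw : w = 0
  · subst hw
    have hne : ∃ e : EuclideanSpace ℝ (Fin d), e ≠ 0 := by
      refine ⟨EuclideanSpace.single ⟨0, hd⟩ (1 : ℝ), ?_⟩
      intro h
      have := congrArg norm h
      simp at this
    obtain ⟨e, he⟩ := hne
    rcases P.eq_empty_or_nonempty with rfl | ⟨p, hp⟩
    · obtain ⟨c', hc'⟩ := upper Q fun x => ⟪e, x⟫
      exact ⟨e, c', he, by simp, hc'⟩
    · rcases Q.eq_empty_or_nonempty with rfl | ⟨q, hq⟩
      · obtain ⟨c', hc'⟩ := lower P fun x => ⟪e, x⟫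
        exact ⟨e, c', he, hc', by simp⟩
      · have h1 := hP p hp
        have h2 := hQ q hq
        rw [inner_zero_left] at h1 h2
        linarith
  · exact ⟨w, c, hw, hP, hQ⟩

lemma separated_of_pos (hd : 1 ≤ d) {A B : Finset (EuclideanSpace ℝ (Fin d))}
    (hAB : Disjoint A B) (u : V d) {P Q : Finset (EuclideanSpace ℝ (Fin d))} (hPA : P ⊆ A)
    (hQB : Q ⊆ B) (hP : ∀ x ∈ P, 0 < (⟪u, vec A x⟫ : ℝ))
    (hQ : ∀ x ∈ Q, 0 < (⟪u, vec A x⟫ : ℝ)) : Separated P Q := by
  refine separated_of_weak hd u.fst u.snd ?_ ?_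
  · intro p hp
    have := hP p hp
    rw [inner_vec_mem (hPA hp)] at this
    linarith
  · intro q hq
    have := hQ q hq
    rw [inner_vec_notMem (Finset.disjoint_right.1 hAB (hQB hq))] at this
    linarith

lemma exists_eta (S : Finset (EuclideanSpace ℝ (Fin d))) (f : EuclideanSpace ℝ (Fin d) → ℝ)
    (hf : ∀ x ∈ S, 0 < f x) : ∃ η : ℝ, 0 < η ∧ ∀ x ∈ S, η ≤ f x := by
  rcases S.eq_empty_or_nonempty with rfl | hS
  · exact ⟨1, one_pos, by simp⟩
  · obtain ⟨y, hy, hmin⟩ := S.exists_min_image f hS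
    exact ⟨f y, hf y hy, hmin⟩

lemma feas_of_separated {A B S : Finset (EuclideanSpace ℝ (Fin d))}
    (hS : S ⊆ A ∪ B) (h : Separated (A ∩ S) (B ∩ S)) :
    (Feas (vec A) S).Nonempty := by
  obtain ⟨w, c, -, hP, hQ⟩ := h
  let u : V d := WithLp.toLp 2 (w, c)
  have hpos : ∀ x ∈ S, 0 < (⟪u, vec A x⟫ : ℝ) := by
    intro x hx
    by_cases hxA : x ∈ A
    · rw [inner_vec_mem hxA]
      have := hP x (mem_inter.2 ⟨hxA, hx⟩)
      change 0 < ⟪w, x⟫ - c
      linarith
    · have hxB : x ∈ B := by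
        rcases mem_union.1 (hS hx) with h | h
        · exact absurd h hxA
        · exact h
      rw [inner_vec_notMem hxA]
      have := hQ x (mem_inter.2 ⟨hxB, hx⟩)
      change 0 < c - ⟪w, x⟫
      linarith
  obtain ⟨η, hη, hmin⟩ := exists_eta S (fun x => ⟪u, vec A x⟫) hpos
  refine ⟨η⁻¹ • u, ?_⟩
  intro x hx
  rw [real_inner_smul_left]
  have h1 := hmin x hx
  have h2 : η⁻¹ * η ≤ η⁻¹ * ⟪u, vec A x⟫ := mul_le_mul_of_nonneg_left h1 (inv_nonneg.2 hη.le)
  rwa [inv_mul_cancel₀ hη.ne'] at h2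

/-- affinely independent sets are separated -/
lemma separated_of_affineIndependent (hd : 1 ≤ d) {A B : Finset (EuclideanSpace ℝ (Fin d))}
    (hAB : Disjoint A B)
    (h : AffineIndependent ℝ (fun x : ↥(A ∪ B) => (x : EuclideanSpace ℝ (Fin d)))) :
    Separated A B := by
  have h1 : convexHull ℝ (A : Set (EuclideanSpace ℝ (Fin d)))
      ∩ convexHull ℝ (B : Set (EuclideanSpace ℝ (Fin d))) = ∅ := by
    rw [← AffineIndependent.convexHull_inter' h, ← Finset.coe_inter,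
      Finset.disjoint_iff_inter_eq_empty.1 hAB]
    simp
  obtain ⟨f, a, b, hf1, hab, hf2⟩ := geometric_hahn_banach_compact_closed
    (convex_convexHull ℝ (B : Set (EuclideanSpace ℝ (Fin d))))
    (B.finite_toSet.isCompact_convexHull (𝕜 := ℝ))
    (convex_convexHull ℝ (A : Set (EuclideanSpace ℝ (Fin d))))
    (A.finite_toSet.isCompact_convexHull (𝕜 := ℝ)).isClosed
    (Set.disjoint_iff_inter_eq_empty.2 (by rw [Set.inter_comm]; exact h1))
  refine separated_of_weak hd ((InnerProductSpace.toDual ℝ _).symm f) a ?_ ?_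
  · intro p hp
    rw [InnerProductSpace.toDual_symm_apply]
    have := hf2 p (subset_convexHull ℝ _ (by exact_mod_cast hp))
    linarith
  · intro q hq
    rw [InnerProductSpace.toDual_symm_apply]
    exact hf1 q (subset_convexHull ℝ _ (by exact_mod_cast hq))

lemma exists_m (D : ℕ) {ρ : ℝ} (h0 : 0 < ρ) (h1 : ρ < 1) :
    ∃ m : ℕ, D + 1 ≤ m ∧ (m.choose D : ℝ) * ρ ^ (m - D) < 1 / 2 := by
  have h2 : Tendsto (fun n : ℕ => (n : ℝ) ^ D * ρ ^ n) atTop (𝓝 0) :=
    tendsto_pow_const_mul_const_pow_of_abs_lt_one D (by rw [abs_of_pos h0]; exact h1)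
  have h3 : 0 < ρ ^ D / 2 := by positivity
  obtain ⟨m, hm1, hm2⟩ := ((h2.eventually (gt_mem_nhds h3)).and
    (eventually_ge_atTop (D + 1))).exists
  refine ⟨m, hm2, ?_⟩
  have h4 : (m.choose D : ℝ) ≤ (m : ℝ) ^ D := by exact_mod_cast Nat.choose_le_pow m D
  have h5 : ρ ^ m = ρ ^ (m - D) * ρ ^ D := by rw [← pow_add]; congr 1; omega
  have h6 : (m : ℝ) ^ D * ρ ^ (m - D) < 1 / 2 := by
    have h7 : 0 < ρ ^ D := by positivity
    have h8 : ((m : ℝ) ^ D * ρ ^ (m - D)) * ρ ^ D < (1 / 2) * ρ ^ D := by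
      calc ((m : ℝ) ^ D * ρ ^ (m - D)) * ρ ^ D = (m : ℝ) ^ D * ρ ^ m := by rw [h5]; ring
        _ < ρ ^ D / 2 := hm1
        _ = (1 / 2) * ρ ^ D := by ring
    exact lt_of_mul_lt_mul_right h8 h7.le
  have h9 : 0 ≤ ρ ^ (m - D) := by positivity
  nlinarith

/-- The conclusion for a given pair `ε, δ`. -/
def Concl (d : ℕ) (ε δ : ℝ) : Prop :=
  ∀ (N : ℕ) (A B : Finset (EuclideanSpace ℝ (Fin d))), Disjoint A B → A.card = N → B.card = N →
    (2 * N ≤ d + 1 → AffineIndependent ℝ (fun x : ↥(A ∪ B) => (x : EuclideanSpace ℝ (Fin d)))) →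
    (1 - ε) * ((2 * N).choose (d + 2) : ℝ) ≤ (numGood A B : ℝ) →
    ∃ A' ⊆ A, ∃ B' ⊆ B, Separated A' B' ∧ (1 - δ) * (N : ℝ) ≤ (A'.card : ℝ) ∧
      (1 - δ) * (N : ℝ) ≤ (B'.card : ℝ)

lemma bad_le {ε : ℝ} {N : ℕ} {A B : Finset (EuclideanSpace ℝ (Fin d))}
    (hAB : Disjoint A B) (hA : A.card = N) (hB : B.card = N)
    (h : (1 - ε) * ((2 * N).choose (d + 2) : ℝ) ≤ (numGood A B : ℝ)) :
    ((((A ∪ B).powersetCard (d + 1 + 1)).filter fun S => ¬ (Feas (vec A) S).Nonempty).card : ℝ)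
      ≤ ε * ((A ∪ B).card.choose (d + 1 + 1) : ℝ) := by
  have hcard : (A ∪ B).card = 2 * N := by
    rw [card_union_of_disjoint hAB, hA, hB]
    ring
  have h1 : numGood A B ≤
      (((A ∪ B).powersetCard (d + 1 + 1)).filter fun S => (Feas (vec A) S).Nonempty).card := by
    unfold numGood
    apply card_le_card
    intro S hS
    rw [mem_filter] at hS ⊢
    refine ⟨hS.1, ?_⟩
    rw [mem_powersetCard] at hS
    exact feas_of_separated hS.1.1 hS.2
  have h2 := card_filter_add_card_filter_not (s := (A ∪ B).powersetCard (d + 1 + 1))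
      (fun S => (Feas (vec A) S).Nonempty)
  rw [card_powersetCard, hcard] at h2
  have h3 : ((((A ∪ B).powersetCard (d + 1 + 1)).filter fun S =>
      (Feas (vec A) S).Nonempty).card : ℝ)
      + ((((A ∪ B).powersetCard (d + 1 + 1)).filter fun S =>
        ¬ (Feas (vec A) S).Nonempty).card : ℝ) = ((2 * N).choose (d + 1 + 1) : ℝ) := by
    exact_mod_cast h2
  have h4 : (numGood A B : ℝ) ≤
      ((((A ∪ B).powersetCard (d + 1 + 1)).filter fun S =>
        (Feas (vec A) S).Nonempty).card : ℝ) := by exact_mod_cast h1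
  rw [hcard]
  have h5 : d + 2 = d + 1 + 1 := rfl
  rw [h5] at h
  linarith

theorem main (hd : 1 ≤ d) {δ : ℝ} (hδ : 0 < δ) (hδ1 : δ ≤ 1) :
    ∃ ε₀ : ℝ, 0 < ε₀ ∧ ∀ ε ≤ ε₀, Concl d ε δ := by
  set ρ : ℝ := 1 - δ / 4 with hρ
  obtain ⟨m, hm1, hm2⟩ := exists_m (d + 1) (ρ := ρ) (by rw [hρ]; linarith) (by rw [hρ]; linarith)
  obtain ⟨n₁, hn₁⟩ := exists_nat_ge (4 * ((d : ℝ) + 1) / δ)
  set n₀ := max m n₁ with hn₀
  have hmn : m ≤ n₀ := le_max_left _ _
  have hc1 : (0 : ℝ) < (m.choose (d + 1 + 1) : ℝ) := by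
    exact_mod_cast Nat.choose_pos hm1
  have hc2 : (0 : ℝ) < (n₀.choose (d + 1 + 1) : ℝ) := by
    exact_mod_cast Nat.choose_pos (hm1.trans hmn)
  refine ⟨min (1 / (4 * (m.choose (d + 1 + 1) : ℝ))) (1 / (2 * (n₀.choose (d + 1 + 1) : ℝ))),
    lt_min (by positivity) (by positivity), ?_⟩
  intro ε hε N A B hAB hA hB haff hgood
  have hε1 : ε ≤ 1 / (4 * (m.choose (d + 1 + 1) : ℝ)) := hε.trans (min_le_left _ _)
  have hε2 : ε ≤ 1 / (2 * (n₀.choose (d + 1 + 1) : ℝ)) := hε.trans (min_le_right _ _)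
  have hbad := bad_le hAB hA hB hgood
  have hcard : (A ∪ B).card = 2 * N := by
    rw [card_union_of_disjoint hAB, hA, hB]
    ring
  have hNr : (0 : ℝ) ≤ (N : ℝ) := Nat.cast_nonneg N
  -- if the whole set is separated
  have hfull : Separated A B → ∃ A' ⊆ A, ∃ B' ⊆ B, Separated A' B' ∧
      (1 - δ) * (N : ℝ) ≤ (A'.card : ℝ) ∧ (1 - δ) * (N : ℝ) ≤ (B'.card : ℝ) := by
    intro hs
    refine ⟨A, Subset.refl A, B, Subset.refl B, hs, ?_, ?_⟩
    · rw [hA]; nlinarith
    · rw [hB]; nlinarith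
  rcases Nat.lt_or_ge (2 * N) n₀ with hsmall | hlarge
  · apply hfull
    rcases Nat.lt_or_ge (2 * N) (d + 1 + 1) with h1 | h1
    · exact separated_of_affineIndependent hd hAB (haff (by omega))
    · have h2 : ((A ∪ B).card.choose (d + 1 + 1) : ℝ) ≤ (n₀.choose (d + 1 + 1) : ℝ) := by
        rw [hcard]
        exact_mod_cast Nat.choose_le_choose _ hsmall.le
      have h3 : (0 : ℝ) < ((A ∪ B).card.choose (d + 1 + 1) : ℝ) := by
        rw [hcard]
        exact_mod_cast Nat.choose_pos h1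
      have h4 : ((((A ∪ B).powersetCard (d + 1 + 1)).filter fun S =>
          ¬ (Feas (vec A) S).Nonempty).card : ℝ) < 1 := by
        calc _ ≤ ε * ((A ∪ B).card.choose (d + 1 + 1) : ℝ) := hbad
          _ ≤ 1 / (2 * (n₀.choose (d + 1 + 1) : ℝ)) * ((A ∪ B).card.choose (d + 1 + 1) : ℝ) :=
            mul_le_mul_of_nonneg_right hε2 h3.le
          _ ≤ 1 / (2 * (n₀.choose (d + 1 + 1) : ℝ)) * (n₀.choose (d + 1 + 1) : ℝ) :=
            mul_le_mul_of_nonneg_left h2 (by positivity)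
          _ = 1 / 2 := by field_simp
          _ < 1 := by norm_num
      have h5 : (((A ∪ B).powersetCard (d + 1 + 1)).filter fun S =>
          ¬ (Feas (vec A) S).Nonempty).card = 0 := by
        have : (((A ∪ B).powersetCard (d + 1 + 1)).filter fun S =>
          ¬ (Feas (vec A) S).Nonempty).card < 1 := by exact_mod_cast h4
        omega
      rw [card_eq_zero, filter_eq_empty_iff] at h5
      have h6 : (Feas (vec A) (A ∪ B)).Nonempty := by
        apply kirchberger (vec A)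
        · rw [finrank_V, hcard]
          exact h1
        · intro S hS hSc
          rw [finrank_V] at hSc
          have := h5 (mem_powersetCard.2 ⟨hS, hSc⟩)
          exact not_not.1 this
      obtain ⟨u, hu⟩ := h6
      refine separated_of_pos hd hAB u (Subset.refl A) (Subset.refl B) ?_ ?_
      · intro x hx
        exact lt_of_lt_of_le one_pos (hu x (mem_union_left _ hx))
      · intro x hx
        exact lt_of_lt_of_le one_pos (hu x (mem_union_right _ hx))
  · obtain ⟨u, hu⟩ := exists_good (vec A) (U := A ∪ B) finrank_V (m := m) hm1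
      (by rw [hcard]; exact hmn.trans hlarge) (ρ := ρ) hbad (by
        have h1 : ε * (m.choose (d + 1 + 1) : ℝ) ≤ 1 / 4 := by
          calc ε * (m.choose (d + 1 + 1) : ℝ)
              ≤ 1 / (4 * (m.choose (d + 1 + 1) : ℝ)) * (m.choose (d + 1 + 1) : ℝ) :=
                mul_le_mul_of_nonneg_right hε1 hc1.le
            _ = 1 / 4 := by field_simp
        linarith)
    rw [hcard] at hu
    have h1 : (((A ∪ B).filter fun x => 0 < (⟪u, vec A x⟫ : ℝ)).card)
        = (A.filter fun x => 0 < (⟪u, vec A x⟫ : ℝ)).card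
          + (B.filter fun x => 0 < (⟪u, vec A x⟫ : ℝ)).card := by
      rw [filter_union, card_union_of_disjoint]
      exact disjoint_filter_filter hAB
    rw [h1] at hu
    have h2 : (A.filter fun x => 0 < (⟪u, vec A x⟫ : ℝ)).card ≤ N := by
      rw [← hA]; exact card_filter_le _ _
    have h3 : (B.filter fun x => 0 < (⟪u, vec A x⟫ : ℝ)).card ≤ N := by
      rw [← hB]; exact card_filter_le _ _
    have h2' : ((A.filter fun x => 0 < (⟪u, vec A x⟫ : ℝ)).card : ℝ) ≤ (N : ℝ) := by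
      exact_mod_cast h2
    have h3' : ((B.filter fun x => 0 < (⟪u, vec A x⟫ : ℝ)).card : ℝ) ≤ (N : ℝ) := by
      exact_mod_cast h3
    have hn1 : n₁ ≤ 2 * N := (le_max_right _ _).trans hlarge
    have hn1' : 4 * ((d : ℝ) + 1) / δ ≤ 2 * (N : ℝ) := by
      refine hn₁.trans ?_
      exact_mod_cast hn1
    have hn2 : 4 * ((d : ℝ) + 1) ≤ 2 * (N : ℝ) * δ := by
      rwa [div_le_iff₀ hδ] at hn1'
    have hdN : d + 1 ≤ 2 * N := by omega
    rw [Nat.cast_sub hdN] at hu
    push_cast at hu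
    have h4 : (2 - δ) * (N : ℝ) < ((A.filter fun x => 0 < (⟪u, vec A x⟫ : ℝ)).card : ℝ)
        + ((B.filter fun x => 0 < (⟪u, vec A x⟫ : ℝ)).card : ℝ) := by
      refine lt_of_le_of_lt ?_ hu
      rw [hρ]
      have : (0 : ℝ) ≤ (d : ℝ) := Nat.cast_nonneg d
      nlinarith
    refine ⟨A.filter fun x => 0 < (⟪u, vec A x⟫ : ℝ), filter_subset _ _,
      B.filter fun x => 0 < (⟪u, vec A x⟫ : ℝ), filter_subset _ _, ?_, by linarith, by linarith⟩
    refine separated_of_pos hd hAB u (filter_subset _ _) (filter_subset _ _) ?_ ?_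
    · intro x hx
      exact (mem_filter.1 hx).2
    · intro x hx
      exact (mem_filter.1 hx).2

lemma concl_mono {ε δ δ' : ℝ} (h : δ ≤ δ') (hc : Concl d ε δ) : Concl d ε δ' := by
  intro N A B hAB hA hB haff hgood
  obtain ⟨A', hA', B', hB', hs, h1, h2⟩ := hc N A B hAB hA hB haff hgood
  have : (1 - δ') * (N : ℝ) ≤ (1 - δ) * (N : ℝ) :=
    mul_le_mul_of_nonneg_right (by linarith) (Nat.cast_nonneg _)
  exact ⟨A', hA', B', hB', hs, this.trans h1, this.trans h2⟩

lemma concl_one (hd : 1 ≤ d) (ε : ℝ) : Concl d ε 1 := by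
  intro N A B _ _ _ _ _
  refine ⟨∅, empty_subset _, ∅, empty_subset _, ?_, by simp, by simp⟩
  exact separated_of_weak hd 0 0 (by simp) (by simp)

end

/-- For every `d ≥ 1` there is a function `g` with `g(ε) → 0` for `ε → 0` such that for every
`ε > 0`, every `N` and all disjoint sets `A, B` of `N` points in `ℝ^d`: if at least a fraction
`1 - ε` of the `(d+2)`-subsets of `A ∪ B` are good, then there are separated subsets `A' ⊆ A` and
`B' ⊆ B` with at least `(1 - g(ε)) N` elements. (No general position is assumed for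
`2 N ≥ d + 2`; for `2 N ≤ d + 1`, where there is no `(d+2)`-subset at all, general position is
understood as affine independence of `A ∪ B`.) -/
theorem result (d : ℕ) (hd : 1 ≤ d) :
    ∃ g : ℝ → ℝ, Tendsto g (𝓝[>] 0) (𝓝 0) ∧
      ∀ ε > 0, ∀ (N : ℕ) (A B : Finset (EuclideanSpace ℝ (Fin d))),
        Disjoint A B → A.card = N → B.card = N →
        (2 * N ≤ d + 1 →
          AffineIndependent ℝ (fun x : ↥(A ∪ B) => (x : EuclideanSpace ℝ (Fin d)))) →
        (1 - ε) * ((2 * N).choose (d + 2) : ℝ) ≤ (numGood A B : ℝ) →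
        ∃ A' ⊆ A, ∃ B' ⊆ B, Separated A' B' ∧ (1 - g ε) * (N : ℝ) ≤ (A'.card : ℝ) ∧
          (1 - g ε) * (N : ℝ) ≤ (B'.card : ℝ) := by
  let g : ℝ → ℝ := fun ε => sInf {δ : ℝ | 0 ≤ δ ∧ Concl d ε δ} + ε
  have hbdd : ∀ ε, BddBelow {δ : ℝ | 0 ≤ δ ∧ Concl d ε δ} := fun ε => ⟨0, fun δ hδ => hδ.1⟩
  have hne : ∀ ε, {δ : ℝ | 0 ≤ δ ∧ Concl d ε δ}.Nonempty :=
    fun ε => ⟨1, zero_le_one, concl_one hd ε⟩
  refine ⟨g, ?_, ?_⟩
  · rw [Metric.tendsto_nhdsWithin_nhds]
    intro η hη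
    set δ := min (η / 2) 1 with hδ
    have hδ0 : 0 < δ := lt_min (by linarith) one_pos
    obtain ⟨ε₀, hε₀, hc⟩ := main hd hδ0 (min_le_right _ _)
    refine ⟨min ε₀ (η / 2), lt_min hε₀ (by linarith), ?_⟩
    intro ε hε hdist
    rw [Real.dist_eq, sub_zero] at hdist
    have hε0 : 0 < ε := hε
    rw [abs_of_pos hε0] at hdist
    have h1 : ε ≤ ε₀ := (hdist.trans_le (min_le_left _ _)).le
    have h2 : ε < η / 2 := hdist.trans_le (min_le_right _ _)
    have h3 : sInf {δ : ℝ | 0 ≤ δ ∧ Concl d ε δ} ≤ δ := csInf_le (hbdd ε) ⟨hδ0.le, hc ε h1⟩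
    have h4 : 0 ≤ sInf {δ : ℝ | 0 ≤ δ ∧ Concl d ε δ} := le_csInf (hne ε) fun δ hδ => hδ.1
    have h5 : δ ≤ η / 2 := min_le_left _ _
    rw [Real.dist_eq, sub_zero, abs_of_nonneg (by simp only [g]; linarith)]
    simp only [g]
    linarith
  · intro ε hε
    have h1 : sInf {δ : ℝ | 0 ≤ δ ∧ Concl d ε δ} < g ε := by simp only [g]; linarith
    obtain ⟨δ, hδ, hlt⟩ := exists_lt_of_csInf_lt (hne ε) h1
    exact concl_mono hlt.le hδ.2

end Pool.Agent.Results.MP_ff3a4f_co.PositiveFractionKirchberger
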